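import Mathlib
import Pool.Agent.Fox.Rate

/-!
Fox's question on two-colour Ramsey multiplicity constants, with an explicit rate: every graph `H`
with `m ≥ 1` edges has `c_H ≥ 2 ^ (- 10 ^ 11 * m * (1 + log_2 m) ^ 8)`.
-/

set_option autoImplicit false

open Filter Topology

namespace Pool.Agent.Results.MP_047b26_co.PolylogRate

/-- The number of labelled copies of `H` in `G`: injective maps of the vertices of `H` to the
vertices of `G` which take every edge of `H` to an edge of `G`. -/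
noncomputable def copies {k n : ℕ} (H : SimpleGraph (Fin k)) (G : SimpleGraph (Fin n)) : ℕ :=
  Nat.card {f : Fin k ↪ Fin n // ∀ i j, H.Adj i j → G.Adj (f i) (f j)}

/-- `m_H(n)`, labelled: the minimum over all graphs `G` on `n` vertices of the number of labelled
copies of `H` in `G` plus the number of labelled copies of `H` in the complement of `G`. -/
noncomputable def minMono {k : ℕ} (H : SimpleGraph (Fin k)) (n : ℕ) : ℕ :=
  ⨅ G : SimpleGraph (Fin n), (copies H G + copies H Gᶜ)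

/-- The ratio `m_H(n) / m_H(K_n)`. -/
noncomputable def ratio {k : ℕ} (H : SimpleGraph (Fin k)) (n : ℕ) : ℝ :=
  (minMono H n : ℝ) / (copies H (⊤ : SimpleGraph (Fin n)) : ℝ)

/-- The Ramsey multiplicity constant `c_H`, the limit of the ratio. -/
noncomputable def ramseyMult {k : ℕ} (H : SimpleGraph (Fin k)) : ℝ :=
  limUnder atTop (ratio H)

theorem ratio_eq {k : ℕ} (H : SimpleGraph (Fin k)) : ratio H = Pool.Agent.Fox.Rate.ratio H := rfl

theorem tendsto_mult {k : ℕ} (H : SimpleGraph (Fin k)) :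
    Tendsto (ratio H) atTop (𝓝 (⨆ n, ratio H n)) :=
  Pool.Agent.Fox.Rate.ratio_tendsto H

theorem mult_eq {k : ℕ} (H : SimpleGraph (Fin k)) : ramseyMult H = ⨆ n, ratio H n :=
  (tendsto_mult H).limUnder_eq

/-- The ratio `m_H(n) / m_H(K_n)` converges to `c_H`, and it never exceeds `c_H`; every graph with
`m ≥ 1` edges has `c_H ≥ 2 ^ (- 10 ^ 11 * m * (1 + log_2 m) ^ 8)`; in particular, for every
`ε > 0` there is `m₀` such that every graph with `m ≥ m₀` edges has `c_H ≥ 2 ^ (- m ^ (1 + ε))`. -/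
theorem result :
    (∀ (k : ℕ) (H : SimpleGraph (Fin k)),
      Tendsto (ratio H) atTop (𝓝 (ramseyMult H)) ∧ ∀ n, ratio H n ≤ ramseyMult H) ∧
    (∀ (k : ℕ) (H : SimpleGraph (Fin k)), 1 ≤ H.edgeSet.ncard →
      (2 : ℝ) ^ (-(10 ^ 11 * (H.edgeSet.ncard : ℝ)
        * (1 + Real.logb 2 (H.edgeSet.ncard : ℝ)) ^ 8)) ≤ ramseyMult H) ∧
    (∀ ε : ℝ, 0 < ε → ∃ m₀ : ℕ, ∀ (k : ℕ) (H : SimpleGraph (Fin k)),
      m₀ ≤ H.edgeSet.ncard →
        (2 : ℝ) ^ (-((H.edgeSet.ncard : ℝ) ^ (1 + ε))) ≤ ramseyMult H) := by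
  refine ⟨fun k H => ⟨?_, ?_⟩, fun k H hm => ?_, fun ε hε => ?_⟩
  · rw [mult_eq]
    exact tendsto_mult H
  · intro n
    rw [mult_eq]
    exact le_ciSup (f := ratio H)
      ⟨2, by rintro _ ⟨n, rfl⟩; exact Pool.Agent.Fox.Rate.ratio_le H n⟩ n
  · rw [mult_eq]
    exact Pool.Agent.Fox.Rate.rate H hm
  · obtain ⟨m₀, h⟩ := Pool.Agent.Fox.Rate.eps_form ε hε
    refine ⟨m₀, fun k H hm => ?_⟩
    rw [mult_eq]
    exact h k H hm

end Pool.Agent.Results.MP_047b26_co.PolylogRate
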